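import Pool.Agent.Helper77.PPB.Goals2
import Pool.Agent.Helper14.PP.DNIC

/-!
# Project PPB, packet B_KU2: local `p`-th powers above `p`
-/

set_option autoImplicit false

namespace Pool.Agent.Helper14.PPB

open NumberField Polynomial Module IsDedekindDomain Pool.Agent.Helper51.RP Pool.Agent.Helper42.RD
open Pool.Agent.Helper11.LE Pool.Agent.Helper11.PP
open Pool.Agent.Helper42.PP (LocS)
open Pool.Agent.Helper40.RS (bel gw gw_inj efg bel_smul lies)
open Pool.Agent.Helper14.PP (free_comp local_root nice)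

/-- `M₂ F₀` is Galois over `M₂` if `F₀` is Galois over `K`. -/
theorem gal_sup {K Ω : Type} [Field K] [Field Ω] [Algebra K Ω]
    (M₂ F₀ H : IntermediateField K Ω) (h1 : M₂ ≤ H) (h2 : F₀ ≤ H) (h : M₂ ⊔ F₀ = H)
    [FiniteDimensional K F₀] [IsGalois K F₀] [Algebra M₂ H]
    (hal : ∀ x : M₂, ((algebraMap M₂ H x : H) : Ω) = x) : IsGalois M₂ H := by
  have hF'fd : FiniteDimensional K (IntermediateField.restrict h2) :=
    (IntermediateField.restrictAlgEquiv h2).toLinearEquiv.finiteDimensional
  have hF'g : IsGalois K (IntermediateField.restrict h2) :=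
    IsGalois.of_algEquiv (IntermediateField.restrictAlgEquiv h2)
  have htop : IntermediateField.restrict h2 ⊔ IntermediateField.restrict h1 = ⊤ := by
    rw [← IntermediateField.lift_inj, IntermediateField.lift_sup, IntermediateField.lift_top,
      IntermediateField.lift_restrict, IntermediateField.lift_restrict, sup_comm, h]
  have hg : IsGalois (IntermediateField.restrict h1) H :=
    IsGalois.sup_right (IntermediateField.restrict h2) (IntermediateField.restrict h1) htop
  have hcomp : (algebraMap M₂ H).comp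
      (((IntermediateField.restrictAlgEquiv h1).symm :
        (IntermediateField.restrict h1) ≃+* M₂) : (IntermediateField.restrict h1) →+* M₂) =
      ((RingEquiv.refl H : H ≃+* H) : H →+* H).comp
        (algebraMap (IntermediateField.restrict h1) H) := by
    ext x
    obtain ⟨y, rfl⟩ := (IntermediateField.restrictAlgEquiv h1).surjective x
    have e : (IntermediateField.restrictAlgEquiv h1).symm
        ((IntermediateField.restrictAlgEquiv h1) y) = y := AlgEquiv.symm_apply_apply _ _
    show ((algebraMap M₂ H ((IntermediateField.restrictAlgEquiv h1).symm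
        ((IntermediateField.restrictAlgEquiv h1) y)) : H) : Ω) = _
    rw [e, hal]
    rfl
  exact IsGalois.of_equiv_equiv hcomp

theorem b_ku2 : Pool.Agent.Helper77.PPB.B_KU2 := by
  intro p hpF K _ _ M₂ F₀ _ _ _ hfree a s hs hsH
  have hp : p.Prime := hpF.out
  have hM₂fd : FiniteDimensional K M₂ := Module.Finite.of_restrictScalars_finite ℚ K M₂
  have hF₀fd : FiniteDimensional K F₀ := Module.Finite.of_restrictScalars_finite ℚ K F₀
  set H : IntermediateField K (AlgebraicClosure K) := M₂ ⊔ F₀ with hH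
  have hHfd : FiniteDimensional K H := IntermediateField.finiteDimensional_sup M₂ F₀
  have hHnf : NumberField H := NumberField.of_module_finite K H
  -- algebras
  let _ : Algebra M₂ H := (IntermediateField.inclusion (le_sup_left : M₂ ≤ H)).toRingHom.toAlgebra
  have hmap₁ : ∀ x : M₂, ((algebraMap M₂ H x : H) : AlgebraicClosure K) = x := fun _ => rfl
  have ht₁ : IsScalarTower K M₂ H := IsScalarTower.of_algebraMap_eq (fun x => rfl)
  let _ : Algebra F₀ H := (IntermediateField.inclusion (le_sup_right : F₀ ≤ H)).toRingHom.toAlgebra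
  have hmap₂ : ∀ x : F₀, ((algebraMap F₀ H x : H) : AlgebraicClosure K) = x := fun _ => rfl
  have ht₂ : IsScalarTower K F₀ H := IsScalarTower.of_algebraMap_eq (fun x => rfl)
  have hg₁ : IsGalois M₂ H := gal_sup M₂ F₀ H le_sup_left le_sup_right rfl hmap₁
  -- generation
  have hgen' : ∀ g : H ≃ₐ[K] H, (∀ x : M₂, g (algebraMap M₂ H x) = algebraMap M₂ H x) →
      (∀ y : F₀, g (algebraMap F₀ H y) = algebraMap F₀ H y) → g = 1 := by
    intro g h1 h2
    have hcl := (inferInstance : IsGalois K (AlgebraicClosure K))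
    set ι : H →ₐ[K] AlgebraicClosure K := H.val with hι
    have hle : M₂ ⊔ F₀ ≤ IntermediateField.lift
        (IntermediateField.fixedField (Subgroup.zpowers g) : IntermediateField K H) := by
      refine sup_le ?_ ?_
      · intro y hy
        refine (IntermediateField.mem_lift (algebraMap M₂ H ⟨y, hy⟩)).2 ?_
        rw [IntermediateField.mem_fixedField_iff]
        intro f hf
        obtain ⟨n, rfl⟩ := Subgroup.mem_zpowers_iff.1 hf
        have h3 : g • (algebraMap M₂ H ⟨y, hy⟩) = algebraMap M₂ H ⟨y, hy⟩ := h1 _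
        have h4 : g ∈ MulAction.stabilizer (H ≃ₐ[K] H) (algebraMap M₂ H ⟨y, hy⟩) := h3
        exact Subgroup.zpow_mem _ h4 n
      · intro y hy
        refine (IntermediateField.mem_lift (algebraMap F₀ H ⟨y, hy⟩)).2 ?_
        rw [IntermediateField.mem_fixedField_iff]
        intro f hf
        obtain ⟨n, rfl⟩ := Subgroup.mem_zpowers_iff.1 hf
        have h3 : g • (algebraMap F₀ H ⟨y, hy⟩) = algebraMap F₀ H ⟨y, hy⟩ := h2 _
        have h4 : g ∈ MulAction.stabilizer (H ≃ₐ[K] H) (algebraMap F₀ H ⟨y, hy⟩) := h3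
        exact Subgroup.zpow_mem _ h4 n
    apply AlgEquiv.ext
    intro x
    have h5 := (IntermediateField.mem_lift x).1 (hle x.2)
    rw [IntermediateField.mem_fixedField_iff] at h5
    exact h5 g (Subgroup.mem_zpowers g)
  have hnice : NiceU p a := by
    apply nice
    intro w hw n hn
    obtain ⟨Q, hQ1, hQ2⟩ := Ideal.exists_maximal_ideal_liesOver_of_isIntegral (S := 𝓞 H) w.asIdeal
    have hQ0 : Q ≠ ⊥ := by
      rintro rfl
      apply w.ne_bot
      rw [hQ2.over]
      exact Ideal.under_bot _ _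
    set P : HeightOneSpectrum (𝓞 H) := ⟨Q, hQ1.isPrime, hQ0⟩ with hP
    have hPw : bel M₂ P = w := by
      apply HeightOneSpectrum.ext
      exact hQ2.over.symm
    have hpP : (p : 𝓞 H) ∈ P.asIdeal := by
      have h1 : (p : 𝓞 M₂) ∈ Q.under (𝓞 M₂) := by
        rw [← hQ2.over]
        exact hw
      have h2 : algebraMap (𝓞 M₂) (𝓞 H) (p : 𝓞 M₂) ∈ Q := h1
      rw [map_natCast] at h2
      exact h2
    have hpv : (p : 𝓞 K) ∈ (bel K (bel F₀ P)).asIdeal := by
      have h1 : algebraMap (𝓞 K) (𝓞 F₀) (p : 𝓞 K) ∈ (bel F₀ P).asIdeal := by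
        rw [map_natCast]
        show algebraMap (𝓞 F₀) (𝓞 H) (p : 𝓞 F₀) ∈ P.asIdeal
        rw [map_natCast]
        exact hpP
      exact h1
    have hVf : FreeP K (bel F₀ P) := hfree _ hpv _ rfl
    have hPf : FreeP M₂ P := free_comp hgen' P hVf
    obtain ⟨y, hy0, hy⟩ := local_root P hPf p ⟨s, hsH⟩ (a : M₂) a.ne_zero hp.ne_zero
      (Subtype.ext hs) n hn
    rw [hPw] at hy
    exact ⟨y, hy0, hy⟩
  obtain ⟨b, y, ⟨c, hc⟩, hb⟩ := hnice
  refine ⟨y, fun W hW => ?_⟩
  have hW' : W.valuation M₂ (p : M₂) < 1 := hW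
  have e : (a : M₂) * (y : M₂) ^ p - 1 = (p : M₂) ^ 3 * (c : M₂) := by
    rw [← hb]
    have h1 := congrArg (fun x : 𝓞 M₂ => (x : M₂)) hc
    simpa using h1
  have hle : W.valuation M₂ ((a : M₂) * (y : M₂) ^ p - 1) ≤ W.valuation M₂ (p : M₂) ^ 3 := by
    rw [e, map_mul, map_pow]
    exact mul_le_of_le_one_right' (W.valuation_le_one c)
  refine ⟨hle.trans_lt ?_, hle⟩
  exact pow_lt_one₀ zero_le hW' (by norm_num)

end Pool.Agent.Helper14.PPB
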